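import Mathlib
import Pool.Agent.W188.GP.Stm

set_option autoImplicit false

/-!
# Project MZ: moments of zeta of all real orders and finitely many lines (helper188)

A local Plancherel-Polya (Marcinkiewicz-Zygmund) inequality for `ζ` on the critical line with the nodes on two
perpendicular lines, for every exponent `p > 0`, and the approximation of all moments by the values on `N` lines.
-/

open Complex MeasureTheory Set Filter Topology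

namespace Pool.Agent.W188.MZ

open Pool.Agent.W188.QS Pool.Agent.W188.GP

/-- one family of nodes -/
noncomputable def Sg (m : ℕ) (γ T t : ℝ) : ℝ :=
  ∑ n ∈ nd γ (t - 2 * Real.log T) (t + 2 * Real.log T),
    ZZ (tau (n + γ)) / (1 + Real.log T * |tau (n + γ) - t|) ^ m

/-- both families -/
noncomputable def S2 (m : ℕ) (γ T t : ℝ) : ℝ := Sg m γ T t + Sg m (γ + 1 / 2) T t

/-- the discrete moment over two perpendicular lines -/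
noncomputable def DD2 (p γ a b : ℝ) : ℝ := DD p γ a b + DD p (γ + 1 / 2) a b

/-- majorant of `Sg ^ p`, one family -/
noncomputable def Wg (p γ T a b t : ℝ) : ℝ :=
  ∑ n ∈ nd γ (a - 2 * Real.log T) (b + 2 * Real.log T),
    ZZ (tau (n + γ)) ^ p / (1 + Real.log T * |tau (n + γ) - t|) ^ 2

/-- both families -/
noncomputable def W2 (p γ T a b t : ℝ) : ℝ := Wg p γ T a b t + Wg p (γ + 1 / 2) T a b t

/-- growth condition for the kernel -/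
def KBd (T : ℝ) (K : ℂ → ℂ) : Prop := ∀ s : ℂ,
  ‖K s‖ ≤ Real.exp (s.re ^ 2 - s.im ^ 2 - Real.log T / 2 * s.re + Real.log T / 4 * |s.re|)

/-- KER: the kernel -/
def StKer : Prop := ∀ m : ℕ, 1 ≤ m → ∃ C T₀ : ℝ, 0 < C ∧ ∀ T : ℝ, T₀ ≤ T → ∃ K : ℂ → ℂ,
  Differentiable ℂ K ∧ K 0 = 1 ∧ KBd T K ∧
  ∀ s : ℂ, |s.re| ≤ 16 / Real.log T → |s.im| ≤ 2 * Real.log T → ‖K s‖ ≤ C / (1 + Real.log T * |s.im|) ^ m

/-- RES2: the residue theorem for `ζ(s) K(s - s₀) / ((1 - w) (s - s₀))`, two lines -/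
def StRes2 : Prop := ∃ C T₀ : ℝ, ∀ (c : ℂ) (T : ℝ) (s₀ : ℂ) (K : ℂ → ℂ), ‖c‖ = 1 → T₀ ≤ T → T / 8 ≤ s₀.im →
  s₀.im ≤ 64 * T → |s₀.re - 1 / 2| ≤ 16 / Real.log T → ww c 2 s₀ ≠ 1 → Differentiable ℂ K → K 0 = 1 → KBd T K →
  ∃ a b : ℝ, s₀.im - Real.log T - 1 ≤ a ∧ a ≤ s₀.im - Real.log T ∧
    s₀.im + Real.log T ≤ b ∧ b ≤ s₀.im + Real.log T + 1 ∧
    ‖riemannZeta s₀ / (1 - ww c 2 s₀) +
      ∑ᶠ t ∈ PP c 2 ∩ Ioo a b, riemannZeta (cp t) * K (cp t - s₀) / (2 * (lam t : ℂ) * (cp t - s₀))‖ ≤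
      C * T ^ (-(3 / 4 : ℝ))

/-- LOCC: local inequality in a small disc -/
def StLocC : Prop := ∀ m : ℕ, 1 ≤ m → ∃ C T₀ : ℝ, 0 < C ∧ ∀ T γ t₀ : ℝ, T₀ ≤ T → T / 4 ≤ t₀ → t₀ ≤ 32 * T →
  ∀ s : ℂ, ‖s - cp t₀‖ ≤ 16 / Real.log T → ‖riemannZeta s‖ ≤ C * S2 m γ T t₀ + T ^ (-(1 / 2 : ℝ))

/-- LIP: Lipschitz bound -/
def StLip : Prop := ∀ m : ℕ, 1 ≤ m → ∃ C T₀ : ℝ, 0 < C ∧ ∀ T γ t₀ t : ℝ, T₀ ≤ T → T / 4 ≤ t₀ → t₀ ≤ 32 * T →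
  |t - t₀| ≤ 8 / Real.log T →
  ‖riemannZeta (cp t) - riemannZeta (cp t₀)‖ ≤
    Real.log T * |t - t₀| * (C * S2 m γ T t₀ + T ^ (-(1 / 2 : ℝ)))

/-- SPC: the nodes are well spaced -/
def StSpc : Prop := ∃ C T₀ : ℝ, 0 < C ∧ ∀ T γ a b x : ℝ, T₀ ≤ T → 200 ≤ a → b ≤ 64 * T →
  ∑ n ∈ nd γ a b, 1 / (1 + Real.log T * |tau (n + γ) - x|) ^ 2 ≤ C

/-- POW: powers of the local sums -/
def StPow : Prop := ∀ (p : ℝ) (m : ℕ), 0 < p → 2 ≤ m → 2 ≤ p * m → ∃ C T₀ : ℝ, 0 < C ∧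
  ∀ T γ a b t : ℝ, T₀ ≤ T → T / 4 ≤ a → a ≤ t → t ≤ b → b ≤ 32 * T →
  S2 m γ T t ^ p ≤ C * W2 p γ T a b t

/-- CMP: comparison of the continuous and the discrete moments -/
def StCmp : Prop := ∀ p : ℝ, 0 < p → ∃ C T₀ : ℝ, 0 < C ∧ ∀ T γ a b : ℝ, T₀ ≤ T → T / 2 ≤ a → a ≤ b →
  b ≤ 16 * T →
  Real.log T * (∫ t in a..b, ZZ t ^ p) ≤
    C * (DD2 p γ (a - 2 * Real.log T) (b + 2 * Real.log T) + (b - a + 1) * T ^ (-(p / 3))) ∧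
  DD p γ a b ≤
    C * (Real.log T * (∫ t in (a - 2 * Real.log T)..(b + 2 * Real.log T), ZZ t ^ p) +
      (b - a + 1) * T ^ (-(p / 3)))

/-- OSC: change of the phase -/
def StOsc : Prop := ∀ p : ℝ, 0 < p → ∃ C T₀ : ℝ, 0 < C ∧ ∀ (T γ γ' a b : ℝ) (N : ℕ), T₀ ≤ T → T ≤ a → a ≤ b →
  b ≤ 8 * T → 1 ≤ N → γ ≤ γ' → γ' ≤ γ + 1 / N →
  ∑ n ∈ nd γ a b, |ZZ (tau (n + γ')) ^ p - ZZ (tau (n + γ)) ^ p| ≤
    C * ((N : ℝ) ^ (-(min 1 p)) *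
      (Real.log T * ∫ t in (a - 4 * Real.log T)..(b + 4 * Real.log T), ZZ t ^ p) +
      (b - a + 1) * T ^ (-(p / 3)))

/-- the error term of the approximation by `N` lines -/
noncomputable def Err (p : ℝ) (N : ℕ) (T a b : ℝ) : ℝ :=
  Real.log T * ((N : ℝ) ^ (-(min 1 p)) * (∫ t in (a - 4 * Real.log T)..(b + 4 * Real.log T), ZZ t ^ p) +
    (∫ t in (a - 4 * Real.log T)..(a + 4 * Real.log T), ZZ t ^ p) +
    ∫ t in (b - 4 * Real.log T)..(b + 4 * Real.log T), ZZ t ^ p) + (b - a + 1) * T ^ (-(p / 4))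

/-- AVN: approximation by `N` lines -/
def StAvN : Prop := ∀ p : ℝ, 0 < p → ∃ C T₀ : ℝ, 0 < C ∧ ∀ (T γ a b : ℝ) (N : ℕ), T₀ ≤ T → T ≤ a → a ≤ b →
  b ≤ 8 * T → 1 ≤ N →
  |1 / (N : ℝ) * (∑ j ∈ Finset.range N, DD p (γ + j / N) a b) - 1 / (2 * Real.pi) * ∫ t in a..b, ZZ t ^ p * lamE t| ≤
    C * Err p N T a b

/-- EQV: equivalence of the asymptotic formulas -/
def StEqv : Prop := ∀ (p A x γ : ℝ), 0 < p → 0 ≤ A →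
  (Tendsto (fun T : ℝ => (∫ t in (0 : ℝ)..T, ZZ t ^ p) / (T * Real.log T ^ A)) atTop (𝓝 x) ↔
    ∀ ε : ℝ, 0 < ε → ∃ M₀ : ℕ, ∀ M : ℕ, M₀ ≤ M → ∀ᶠ T : ℝ in atTop,
      |Real.pi / M * (∑ j ∈ Finset.range (2 * M), DD p (γ + j / (2 * M : ℕ)) 100 T) /
        (T * Real.log T ^ (A + 1)) - x| ≤ ε)

/-- PTS: points on `N` lines and nodes (`c` of norm one, `ww c N (cp t) = 1`) -/
def StPts : Prop := ∀ (c : ℂ) (N : ℕ), ‖c‖ = 1 → 1 ≤ N → ∃ γ : ℝ, ∀ (f : ℝ → ℝ) (a b : ℝ), 100 ≤ a → a ≤ b →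
  (PP c N ∩ Ioc a b).Finite ∧
  ∑ᶠ t ∈ PP c N ∩ Ioc a b, f t = ∑ j ∈ Finset.range N, ∑ n ∈ nd (γ + j / N) a b, f (tau (n + (γ + j / N)))

end Pool.Agent.W188.MZ
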