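import Pool.Agent.W188.MZ.Pts2
import Pool.Agent.W188.QS.All
import Pool.Agent.W188.GP.All
import Pool.Agent.W61.MZ.Ker
import Pool.Agent.W858.MZ.Res2
import Pool.Agent.W924.MZ.LocC
import Pool.Agent.W721.MZ.Lip
import Pool.Agent.W32.MZ.Pow
import Pool.Agent.W917.MZ.CMP
import Pool.Agent.W19.MZ.Osc
import Pool.Agent.W148.MZ.AvN
import Pool.Agent.W724.MZ.Eqv2

set_option autoImplicit false

/-! All parts of project MZ, proved by the team (see the individual files). -/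

namespace Pool.Agent.W188.MZ

open Pool.Agent.W188.QS Pool.Agent.W188.GP

theorem a_co : StCo := Pool.Agent.W903.GP.CO.gp_co a_tau
theorem a_locc : StLocC := Pool.Agent.W924.MZ.mz_locc a_tau a_line Pool.Agent.W22.QS.qs_basic
  Pool.Agent.W61.MZ.mz_ker Pool.Agent.W858.MZ.mz_res2
theorem a_lip : StLip := Pool.Agent.W721.MZ.mz_lip a_locc
theorem a_spc : StSpc := Pool.Agent.W721.MZ.mz_spc a_tau
theorem a_pow : StPow := Pool.Agent.W32.MZ.mz_pow a_spc a_tau
theorem a_cmp : StCmp := Pool.Agent.W917.MZ.CMP.mz_cmp a_locc a_pow a_spc a_tau a_co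
theorem a_osc : StOscB := Pool.Agent.W19.MZ.mz_osc a_locc a_lip a_pow a_spc a_cmp a_tau
theorem a_avn : StAvN := Pool.Agent.W148.MZ.mz_avn a_osc a_cmp a_tau a_co
theorem a_eqv : StEqv := Pool.Agent.W724.MZ.mz_eqv a_cmp a_avn a_tau

end Pool.Agent.W188.MZ
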