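import Pool.Agent.W188.MZ.Stm

set_option autoImplicit false

open Complex MeasureTheory Set Filter Topology

namespace Pool.Agent.W188.MZ

open Pool.Agent.W188.QS Pool.Agent.W188.GP

/-- OSCB: change of the phase, exponent `p / 4` in the last term (replaces `StOsc`) -/
def StOscB : Prop := ∀ p : ℝ, 0 < p → ∃ C T₀ : ℝ, 0 < C ∧ ∀ (T γ γ' a b : ℝ) (N : ℕ), T₀ ≤ T → T ≤ a → a ≤ b →
  b ≤ 8 * T → 1 ≤ N → γ ≤ γ' → γ' ≤ γ + 1 / N →
  ∑ n ∈ nd γ a b, |ZZ (tau (n + γ')) ^ p - ZZ (tau (n + γ)) ^ p| ≤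
    C * ((N : ℝ) ^ (-(min 1 p)) *
      (Real.log T * ∫ t in (a - 4 * Real.log T)..(b + 4 * Real.log T), ZZ t ^ p) +
      (b - a + 1) * T ^ (-(p / 4)))

end Pool.Agent.W188.MZ
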